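import Pool.Agent.H6.NE.Stm3

set_option autoImplicit false

namespace H12.NE

open H6.NE

/-- ABN: a maximal abelian normal subgroup of a finite `p`-group is self-centralising. -/
theorem t_ABN : S_ABN := by
  intro p hp G _ _ hG
  classical
  have hwf : ∃ A : Subgroup G, (A.Normal ∧ ∀ a ∈ A, ∀ b ∈ A, a * b = b * a) ∧
      ∀ B : Subgroup G, (B.Normal ∧ ∀ a ∈ B, ∀ b ∈ B, a * b = b * a) → A ≤ B → B ≤ A := by
    obtain ⟨A, hA⟩ := Set.Finite.exists_maximal
      (Set.toFinite {A : Subgroup G | A.Normal ∧ ∀ a ∈ A, ∀ b ∈ A, a * b = b * a})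
      ⟨⊥, by
        refine ⟨inferInstance, ?_⟩
        intro a ha b hb
        rw [Subgroup.mem_bot] at ha hb
        rw [ha, hb]⟩
    exact ⟨A, hA.1, fun B hB hAB => hA.2 hB hAB⟩
  obtain ⟨A, ⟨hAn, hAc⟩, hmax⟩ := hwf
  refine ⟨A, hAn, hAc, ?_⟩
  intro g hg
  by_contra hgA
  have := hAn
  -- the centraliser
  set C : Subgroup G := Subgroup.centralizer (A : Set G) with hC
  have hgC : g ∈ C := by
    rw [hC, Subgroup.mem_centralizer_iff]
    intro a ha
    exact (hg a ha).symm
  have hCn : C.Normal := by rw [hC]; infer_instance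
  have hAC : A ≤ C := by
    intro a ha
    rw [hC, Subgroup.mem_centralizer_iff]
    intro b hb
    exact hAc b hb a ha
  set N : Subgroup (G ⧸ A) := C.map (QuotientGroup.mk' A) with hN
  have hNn : N.Normal := Subgroup.Normal.map hCn _ (QuotientGroup.mk'_surjective A)
  have hQ : IsPGroup p (G ⧸ A) := hG.to_quotient A
  have hNp : IsPGroup p N := hQ.to_subgroup N
  have hNt : Nontrivial N := by
    refine ⟨⟨⟨QuotientGroup.mk' A g, Subgroup.mem_map_of_mem _ hgC⟩, 1, ?_⟩⟩
    intro h
    have h1 := congrArg Subtype.val h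
    apply hgA
    simpa using h1
  have hdvd : p ∣ Nat.card N := by
    obtain ⟨n, hn, hcard⟩ := hNp.nontrivial_iff_card.mp hNt
    rw [hcard]
    exact dvd_pow_self p (by omega)
  have hcp : IsPGroup p (ConjAct (G ⧸ A)) := hQ
  have hfix : (1 : N) ∈ MulAction.fixedPoints (ConjAct (G ⧸ A)) N := by
    intro x
    exact smul_one x
  obtain ⟨b, hb, hb1⟩ := hcp.exists_fixed_point_of_prime_dvd_card_of_fixed_point N hdvd hfix
  obtain ⟨c, hcC, hcb⟩ := Subgroup.mem_map.mp b.2
  have hcA : c ∉ A := by
    intro h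
    apply hb1
    apply Subtype.ext
    rw [← hcb]
    symm
    simpa using h
  -- c is central modulo A
  have hcen : ∀ y : G, y * c * y⁻¹ * c⁻¹ ∈ A := by
    intro y
    have h1 := hb (ConjAct.toConjAct (QuotientGroup.mk' A y))
    have h2 := congrArg Subtype.val h1
    rw [ConjAct.Subgroup.val_conj_smul, ConjAct.toConjAct_smul, ← hcb] at h2
    rw [← QuotientGroup.eq_one_iff]
    have h3 : (QuotientGroup.mk' A) (y * c * y⁻¹ * c⁻¹) = 1 := by
      rw [map_mul, map_mul, map_mul, map_inv, map_inv, h2, mul_inv_cancel]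
    exact h3
  have hcomm : ∀ a ∈ A, c * a = a * c := by
    intro a ha
    exact (Subgroup.mem_centralizer_iff.mp hcC a ha).symm
  let B : Subgroup G := Subgroup.closure ((A : Set G) ∪ {c})
  have hAB : A ≤ B := fun a ha => Subgroup.subset_closure (Or.inl ha)
  have hcB : c ∈ B := Subgroup.subset_closure (Or.inr rfl)
  apply hcA
  apply hmax B _ hAB hcB
  constructor
  · constructor
    intro x hx y
    have hx' : x ∈ Subgroup.closure ((A : Set G) ∪ {c}) := hx
    clear hx
    induction hx' using Subgroup.closure_induction with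
    | mem x hz =>
      rcases hz with hz | hz
      · exact hAB (hAn.conj_mem x hz y)
      · rw [Set.mem_singleton_iff] at hz
        rw [hz]
        have h1 : y * c * y⁻¹ = (y * c * y⁻¹ * c⁻¹) * c := by group
        rw [h1]
        exact mul_mem (hAB (hcen y)) hcB
    | one => simp [one_mem]
    | mul a b ha hb iha ihb =>
      have h1 : y * (a * b) * y⁻¹ = (y * a * y⁻¹) * (y * b * y⁻¹) := by group
      rw [h1]
      exact mul_mem iha ihb
    | inv a ha iha =>
      have h1 : y * a⁻¹ * y⁻¹ = (y * a * y⁻¹)⁻¹ := by group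
      rw [h1]
      exact inv_mem iha
  · have hgen : ∀ x ∈ (A : Set G) ∪ {c}, ∀ y ∈ (A : Set G) ∪ {c}, x * y = y * x := by
      rintro x (hx | hx) y (hy | hy)
      · exact hAc x hx y hy
      · rw [Set.mem_singleton_iff] at hy
        subst hy
        exact (hcomm x hx).symm
      · rw [Set.mem_singleton_iff] at hx
        subst hx
        exact hcomm y hy
      · rw [Set.mem_singleton_iff] at hx hy
        rw [hx, hy]
    intro x hx y hy
    have h1 : B ≤ Subgroup.centralizer ((A : Set G) ∪ {c}) := by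
      rw [Subgroup.closure_le]
      intro z hz
      rw [SetLike.mem_coe, Subgroup.mem_centralizer_iff]
      intro w hw
      exact hgen w hw z hz
    have h2 : (A : Set G) ∪ {c} ⊆ Subgroup.centralizer (B : Set G) := by
      intro z hz
      rw [SetLike.mem_coe, Subgroup.mem_centralizer_iff]
      intro w hw
      exact (Subgroup.mem_centralizer_iff.mp (h1 hw) z hz).symm
    have h3 : B ≤ Subgroup.centralizer (B : Set G) := (Subgroup.closure_le _).mpr h2
    exact (Subgroup.mem_centralizer_iff.mp (h3 hx) y hy).symm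

end H12.NE
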